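import Mathlib
import Pool.Agent.N909.TF.Tools
import Pool.Agent.R528.RM.GoldQ

set_option autoImplicit false

/-! # The forms `q r + 1` modulo a fixed integer and their expected number -/

open Filter Polynomial
open scoped Topology

namespace Pool.Agent.N256.UT

open Pool.Agent.R528.RM Pool.Agent.N909.TF

/-- the number of residue classes `q` modulo `p` with `∏ (q r + 1) ≡ 0` modulo `p` -/
noncomputable def w (R : Finset ℕ) (p : ℕ) : ℕ := {q : ℕ | q < p ∧ p ∣ ∏ r ∈ R, (q * r + 1)}.ncard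

/-- the factors of the singular product at the primes dividing `Q` -/
noncomputable def sing (Q : ℕ) (R : Finset ℕ) : ℝ :=
  ∏ p ∈ Q.primeFactors, (1 - (w R p : ℝ) / p) / (1 - 1 / (p : ℝ)) ^ R.card

/-- the radical -/
def rad (Q : ℕ) : ℕ := ∏ p ∈ Q.primeFactors, p

lemma rad_pos (Q : ℕ) : 0 < rad Q := Finset.prod_pos fun _ hq => (Nat.prime_of_mem_primeFactors hq).pos

lemma rad_le (Q : ℕ) (hQ : 0 < Q) : rad Q ≤ Q := Nat.le_of_dvd hQ (Nat.prod_primeFactors_dvd Q)

lemma coprime_rad (Q t : ℕ) (hQ : 0 < Q) : Nat.Coprime t (rad Q) ↔ Nat.Coprime t Q := by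
  constructor
  · intro h
    rw [coprime_iff_primes]
    intro l hl hlQ hlt
    rw [coprime_iff_primes] at h
    exact h l hl (Finset.dvd_prod_of_mem _ (Nat.mem_primeFactors.2 ⟨hl, hlQ, hQ.ne'⟩)) hlt
  · intro h
    exact h.coprime_dvd_right (Nat.prod_primeFactors_dvd Q)

lemma ratio_rad (Q : ℕ) (hQ : 0 < Q) : ((rad Q : ℕ) : ℝ) / Nat.totient (rad Q) = (Q : ℝ) / Nat.totient Q := by
  have h1 := Nat.totient_mul_prod_primeFactors Q
  have h2 := Nat.totient_mul_prod_primeFactors (rad Q)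
  have h3 : (rad Q).primeFactors = Q.primeFactors := by
    ext p
    simp only [Nat.mem_primeFactors]
    constructor
    · rintro ⟨a, b, _⟩
      exact ⟨a, b.trans (Nat.prod_primeFactors_dvd Q), hQ.ne'⟩
    · rintro ⟨a, b, c⟩
      exact ⟨a, Finset.dvd_prod_of_mem _ (Nat.mem_primeFactors.2 ⟨a, b, c⟩), (rad_pos Q).ne'⟩
  rw [h3] at h2
  have p1 : 0 < Nat.totient Q := Nat.totient_pos.2 hQ
  have p2 : 0 < Nat.totient (rad Q) := Nat.totient_pos.2 (rad_pos Q)
  have p3 : 0 < ∏ p ∈ Q.primeFactors, (p - 1) := Finset.prod_pos fun p hp => by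
    have := (Nat.prime_of_mem_primeFactors hp).one_lt
    omega
  rw [div_eq_div_iff (by exact_mod_cast p2.ne') (by exact_mod_cast p1.ne')]
  have h4 : rad Q * Nat.totient Q = Q * Nat.totient (rad Q) := by
    have e1 : Nat.totient Q * rad Q = Q * ∏ p ∈ Q.primeFactors, (p - 1) := h1
    have e2 : Nat.totient (rad Q) * rad Q = rad Q * ∏ p ∈ Q.primeFactors, (p - 1) := h2
    have e3 : Nat.totient (rad Q) = ∏ p ∈ Q.primeFactors, (p - 1) := by
      have := rad_pos Q
      rw [mul_comm] at e2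
      exact Nat.eq_of_mul_eq_mul_left this e2
    rw [e3, mul_comm, e1]
  exact_mod_cast h4

/-- the linear forms -/
noncomputable def PR (R : Finset ℕ) : Finset ℤ[X] := by
  classical
  exact R.image (fun h : ℕ => (C (h : ℤ) * X + 1 : ℤ[X]))

lemma PR_inj (a b : ℕ) (h : (C (a : ℤ) * X + 1 : ℤ[X]) = C (b : ℤ) * X + 1) : a = b := by
  have := congr_arg (fun f => f.coeff 1) h
  simpa [Polynomial.coeff_one] using this

lemma PR_card (R : Finset ℕ) : (PR R).card = R.card := by
  classical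
  unfold PR
  exact Finset.card_image_of_injective _ fun a b h => PR_inj a b h

lemma good_PR (R : Finset ℕ) (W q : ℕ) : good (PR R) W q ↔ ∀ r ∈ R, Nat.Coprime (q * r + 1) W := by
  classical
  unfold good PR
  simp only [Finset.mem_image, forall_exists_index, and_imp, forall_apply_eq_imp_iff₂, eval_add, eval_X, eval_C,
    eval_mul, eval_one]
  refine forall₂_congr fun h _ => ?_
  have : ((h : ℤ) * q + 1) = ((q * h + 1 : ℕ) : ℤ) := by push_cast; ring
  rw [this, Int.gcd_natCast_natCast]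

lemma omega_PR (R : Finset ℕ) {p : ℕ} (hp : p.Prime) : omegaF (PR R) p = w R p := by
  classical
  have hpi : Prime (p : ℤ) := Nat.prime_iff_prime_int.1 hp
  unfold omegaF w
  congr 1
  ext q
  simp only [Set.mem_ofPred_eq, and_congr_right_iff]
  intro _
  rw [hpi.dvd_finsetProd_iff, hp.prime.dvd_finsetProd_iff]
  unfold PR
  simp only [Finset.mem_image]
  constructor
  · rintro ⟨f, ⟨h, hh, rfl⟩, hf⟩
    refine ⟨h, hh, ?_⟩
    simp only [eval_add, eval_X, eval_C, eval_mul, eval_one] at hf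
    have e : ((h : ℤ) * q + 1) = ((q * h + 1 : ℕ) : ℤ) := by push_cast; ring
    rw [e] at hf
    exact_mod_cast hf
  · rintro ⟨h, hh, hf⟩
    refine ⟨C (h : ℤ) * X + 1, ⟨h, hh, rfl⟩, ?_⟩
    simp only [eval_add, eval_X, eval_C, eval_mul, eval_one]
    have e : ((h : ℤ) * q + 1) = ((q * h + 1 : ℕ) : ℤ) := by push_cast; ring
    rw [e]
    exact_mod_cast hf

/-- the density of the admissible `q` -/
noncomputable def den (Q : ℕ) (R : Finset ℕ) : ℝ := (Nat.count (good (PR R) (rad Q)) (rad Q) : ℝ) / ((rad Q : ℕ) : ℝ)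

lemma den_ge (Q : ℕ) (R : Finset ℕ) : 1 / ((rad Q : ℕ) : ℝ) ≤ den Q R := by
  classical
  unfold den
  have h0 : good (PR R) (rad Q) 0 := by
    rw [good_PR]
    intro r _
    simp
  have h1 : 1 ≤ Nat.count (good (PR R) (rad Q)) (rad Q) := by
    rw [Nat.count_eq_card_filter_range]
    exact Finset.card_pos.2 ⟨0, Finset.mem_filter.2 ⟨Finset.mem_range.2 (rad_pos Q), h0⟩⟩
  have h2 : (1 : ℝ) ≤ Nat.count (good (PR R) (rad Q)) (rad Q) := by exact_mod_cast h1
  have h3 : (0 : ℝ) < rad Q := by exact_mod_cast rad_pos Q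
  gcongr

lemma sing_eq (Q : ℕ) (hQ : 0 < Q) (R : Finset ℕ) :
    sing Q R = den Q R * ((Q : ℝ) / Nat.totient Q) ^ R.card := by
  have h1 := const_prod (PR R) Q.primeFactors (fun p hp => Nat.prime_of_mem_primeFactors hp)
  rw [PR_card] at h1
  have h2 : ((rad Q : ℕ) : ℝ) / Nat.totient (rad Q) = (Q : ℝ) / Nat.totient Q := ratio_rad Q hQ
  rw [← h2]
  unfold den
  refine Eq.trans ?_ h1.symm
  unfold sing
  refine Finset.prod_congr rfl fun p hp => ?_
  have hpp := Nat.prime_of_mem_primeFactors hp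
  have h4 := omega_good (PR R) hpp
  have h5 : (Nat.count (good (PR R) p) p : ℝ) + omegaF (PR R) p = p := by exact_mod_cast h4
  have h6 : (0 : ℝ) < p := by exact_mod_cast hpp.pos
  have h7 : (Nat.count (good (PR R) p) p : ℝ) / p = 1 - (omegaF (PR R) p : ℝ) / p := by
    field_simp
    linarith
  rw [h7, inv_pow, omega_PR R hpp]
  exact div_eq_mul_inv _ _

lemma sing_ge (Q : ℕ) (hQ : 0 < Q) (R : Finset ℕ) : 1 / (Q : ℝ) ≤ sing Q R := by
  rw [sing_eq Q hQ]
  have h1 := den_ge Q R
  have h2 : (1 : ℝ) ≤ ((Q : ℝ) / Nat.totient Q) ^ R.card := one_le_pow₀ (cQ_ge Q hQ)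
  have h3 : (0 : ℝ) < rad Q := by exact_mod_cast rad_pos Q
  have h4 : 1 / (Q : ℝ) ≤ 1 / ((rad Q : ℕ) : ℝ) := by
    have : ((rad Q : ℕ) : ℝ) ≤ Q := by exact_mod_cast rad_le Q hQ
    gcongr
  have h5 : 0 ≤ den Q R := by
    unfold den
    positivity
  calc 1 / (Q : ℝ) ≤ den Q R := h4.trans h1
    _ = den Q R * 1 := (mul_one _).symm
    _ ≤ _ := mul_le_mul_of_nonneg_left h2 h5

/-- the expected number of chosen tuples -/
noncomputable def EE (Q : ℕ) (R : Finset ℕ) (a b : ℕ) : ℝ :=
  ∑ q ∈ Finset.Ico a b, ∏ r ∈ R, rhoW Q (q * r + 1)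

/-- the number of admissible `q` in an interval -/
lemma count_interval (Q : ℕ) (R : Finset ℕ) (a b : ℕ) (hab : a ≤ b) :
    |(((Finset.Ico a b).filter (good (PR R) (rad Q))).card : ℝ) - ((b : ℝ) - a) * den Q R| ≤ 2 * rad Q := by
  classical
  have h1 := count_periodic (good (PR R) (rad Q)) (rad Q) (rad_pos Q) (good_periodic _ _) a
  have h2 := count_periodic (good (PR R) (rad Q)) (rad Q) (rad_pos Q) (good_periodic _ _) b
  have h3 : ((Finset.Ico a b).filter (good (PR R) (rad Q))).card + Nat.count (good (PR R) (rad Q)) a =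
      Nat.count (good (PR R) (rad Q)) b := by
    rw [Nat.count_eq_card_filter_range, Nat.count_eq_card_filter_range, add_comm,
      ← Finset.card_union_of_disjoint]
    · congr 1
      rw [← Finset.filter_union]
      congr 1
      ext x
      simp only [Finset.mem_union, Finset.mem_range, Finset.mem_Ico]
      omega
    · apply Finset.disjoint_filter_filter
      rw [Finset.disjoint_left]
      intro x hx hx'
      rw [Finset.mem_range] at hx
      rw [Finset.mem_Ico] at hx'
      omega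
  have h4 : (((Finset.Ico a b).filter (good (PR R) (rad Q))).card : ℝ) + Nat.count (good (PR R) (rad Q)) a =
      Nat.count (good (PR R) (rad Q)) b := by exact_mod_cast h3
  have h5 := abs_le.1 h1
  have h6 := abs_le.1 h2
  have e : (((Finset.Ico a b).filter (good (PR R) (rad Q))).card : ℝ) - ((b : ℝ) - a) * den Q R =
      ((Nat.count (good (PR R) (rad Q)) b : ℝ) - b * den Q R) -
        ((Nat.count (good (PR R) (rad Q)) a : ℝ) - a * den Q R) := by
    rw [← h4]
    ring
  rw [e]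
  unfold den
  rw [abs_le]
  constructor <;> linarith [h5.1, h5.2, h6.1, h6.2]

end Pool.Agent.N256.UT
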