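import Mathlib
import Pool.Agent.N256.UT.Det

set_option autoImplicit false

/-! # The expected number of tuples `q r + 1` -/

open Filter Polynomial
open scoped Topology

namespace Pool.Agent.N256.UT

open Pool.Agent.R528.RM Pool.Agent.N909.TF

/-- the main term -/
noncomputable def MM (Q : ℕ) (R : Finset ℕ) (x y : ℝ) : ℝ := sing Q R * y / ∏ r ∈ R, Real.log (r * x)

lemma den_le (Q : ℕ) (R : Finset ℕ) : den Q R ≤ 1 := by
  classical
  unfold den
  have h3 : (0 : ℝ) < rad Q := by exact_mod_cast rad_pos Q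
  rw [div_le_one h3]
  exact_mod_cast Nat.count_le _ (n := rad Q)

lemma eta_ev (l : ℕ) (ε : ℝ) (hε : 0 < ε) :
    ∀ᶠ x : ℝ in atTop, (1 + Real.log 4 / Real.log x) ^ l * (1 - ε) ≤ 1 := by
  have h1 : Tendsto (fun x : ℝ => (1 + Real.log 4 / Real.log x) ^ l * (1 - ε)) atTop (𝓝 ((1 + 0) ^ l * (1 - ε))) := by
    refine ((tendsto_const_nhds.add ?_).pow l).mul_const _
    exact Real.tendsto_log_atTop.const_div_atTop _
  have h2 : (1 + 0 : ℝ) ^ l * (1 - ε) < 1 := by
    rw [add_zero, one_pow, one_mul]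
    linarith
  filter_upwards [h1.eventually (gt_mem_nhds h2)] with x hx
  exact hx.le

/-- the elements of the tuples -/
lemma log_bounds {x y : ℝ} (hx : 1 < x) (hy : y ≤ 2 * x) {q r : ℕ} (hr : 0 < r) (hq : q ∈ Finset.Ico ⌈x⌉₊ ⌈x + y⌉₊) :
    0 < Real.log (r * x) ∧ Real.log x ≤ Real.log (r * x) ∧ Real.log (r * x) ≤ Real.log ((q * r + 1 : ℕ) : ℝ) ∧
      Real.log ((q * r + 1 : ℕ) : ℝ) ≤ (1 + Real.log 4 / Real.log x) * Real.log (r * x) := by
  rw [Finset.mem_Ico, Nat.ceil_le, Nat.lt_ceil] at hq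
  obtain ⟨h1, h2⟩ := hq
  have hr1 : (1 : ℝ) ≤ r := by exact_mod_cast hr
  have hx0 : 0 < x := by linarith
  have hrx : x ≤ r * x := by nlinarith
  have hl : 0 < Real.log x := Real.log_pos hx
  have h3 : Real.log x ≤ Real.log (r * x) := Real.log_le_log hx0 hrx
  have h4 : 0 < Real.log (r * x) := by linarith
  have h5 : (r : ℝ) * x ≤ ((q * r + 1 : ℕ) : ℝ) := by
    push_cast
    nlinarith
  have h6 : ((q * r + 1 : ℕ) : ℝ) ≤ 4 * (r * x) := by
    push_cast
    have : (q : ℝ) ≤ 3 * x := by linarith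
    have : (q : ℝ) * r ≤ 3 * x * r := mul_le_mul_of_nonneg_right this (by linarith)
    nlinarith
  have h7 : Real.log ((q * r + 1 : ℕ) : ℝ) ≤ Real.log 4 + Real.log (r * x) := by
    rw [← Real.log_mul (by norm_num) (by positivity)]
    exact Real.log_le_log (by positivity) h6
  refine ⟨h4, h3, Real.log_le_log (by positivity) h5, h7.trans ?_⟩
  have h8 : Real.log 4 ≤ Real.log 4 / Real.log x * Real.log (r * x) := by
    rw [div_mul_eq_mul_div, le_div_iff₀ hl]
    exact mul_le_mul_of_nonneg_left h3 (Real.log_nonneg (by norm_num))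
  linarith

/-- the expected number is asymptotic to the main term, uniformly -/
theorem EE_asymp (Q : ℕ) (hQ : 0 < Q) (l : ℕ) (ε : ℝ) (hε : 0 < ε) :
    ∃ X : ℝ, ∀ x : ℝ, X ≤ x → ∀ y : ℝ, X ≤ y → y ≤ 2 * x → ∀ R : Finset ℕ, R.card = l → (∀ r ∈ R, 0 < r) →
      |EE Q R ⌈x⌉₊ ⌈x + y⌉₊ - MM Q R x y| ≤ ε * MM Q R x y := by
  classical
  set e : ℝ := min (ε / 2) (1 / 2) with he
  have he0 : 0 < e := by rw [he]; positivity
  have he1 : e ≤ 1 / 2 := min_le_right _ _
  have heε : 2 * e ≤ ε := by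
    have : e ≤ ε / 2 := min_le_left _ _
    linarith
  have hc := cQ_ge Q hQ
  set c : ℝ := (Q : ℝ) / Nat.totient Q with hcdef
  have hW : (0 : ℝ) < rad Q := by exact_mod_cast rad_pos Q
  obtain ⟨X1, hX1⟩ := eventually_atTop.1 ((eta_ev l e he0).and
    ((Real.tendsto_log_atTop.eventually_ge_atTop c).and (eventually_gt_atTop 1)))
  refine ⟨max X1 ((2 * rad Q + 1) * rad Q / e), fun x hx y hy hyx R hR hR0 => ?_⟩
  obtain ⟨g1, g2, g3⟩ := hX1 x ((le_max_left _ _).trans hx)
  have hy1 : (2 * rad Q + 1) * rad Q / e ≤ y := (le_max_right _ _).trans hy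
  have hy0 : 0 < y := lt_of_lt_of_le (by positivity) hy1
  have hlx : 0 < Real.log x := Real.log_pos g3
  set η : ℝ := Real.log 4 / Real.log x with hη
  have hη0 : 0 ≤ η := div_nonneg (Real.log_nonneg (by norm_num)) hlx.le
  have hd1 := den_ge Q R
  have hd2 := den_le Q R
  set d : ℝ := den Q R with hd
  have hd0 : 0 < d := lt_of_lt_of_le (by positivity) hd1
  set P0 : ℝ := ∏ r ∈ R, Real.log (r * x) with hP0
  have hP : 0 < P0 := by
    refine Finset.prod_pos fun r hr => ?_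
    have : (1 : ℝ) ≤ r := by exact_mod_cast hR0 r hr
    exact Real.log_pos (by nlinarith)
  set S := (Finset.Ico ⌈x⌉₊ ⌈x + y⌉₊).filter (good (PR R) (rad Q)) with hS
  have hsum : EE Q R ⌈x⌉₊ ⌈x + y⌉₊ = ∑ q ∈ S, ∏ r ∈ R, c / Real.log ((q * r + 1 : ℕ) : ℝ) := by
    unfold EE
    rw [hS, Finset.sum_filter]
    refine Finset.sum_congr rfl fun q hq => ?_
    by_cases hg : good (PR R) (rad Q) q
    · rw [if_pos hg]
      rw [good_PR] at hg
      refine Finset.prod_congr rfl fun r hr => ?_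
      have hb := log_bounds g3 hyx (hR0 r hr) hq
      unfold rhoW
      rw [if_pos ((coprime_rad Q _ hQ).1 (hg r hr))]
      refine min_eq_right ?_
      have : 0 < Real.log ((q * r + 1 : ℕ) : ℝ) := by linarith [hb.1, hb.2.2.1]
      rw [div_le_one this]
      linarith [hb.2.1, hb.2.2.1]
    · rw [if_neg hg]
      rw [good_PR] at hg
      push Not at hg
      obtain ⟨r, hr, hr2⟩ := hg
      refine Finset.prod_eq_zero hr ?_
      unfold rhoW
      rw [if_neg]
      intro h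
      exact hr2 ((coprime_rad Q _ hQ).2 h)
  have hup : ∀ q ∈ S, ∏ r ∈ R, c / Real.log ((q * r + 1 : ℕ) : ℝ) ≤ c ^ l / P0 := by
    intro q hq
    have hq' := (Finset.mem_filter.1 hq).1
    rw [hP0, ← hR, ← Finset.prod_const, ← Finset.prod_div_distrib]
    refine Finset.prod_le_prod (fun r hr => ?_) fun r hr => ?_
    · have hb := log_bounds g3 hyx (hR0 r hr) hq'
      have : 0 < Real.log ((q * r + 1 : ℕ) : ℝ) := by linarith [hb.1, hb.2.2.1]
      positivity
    · have hb := log_bounds g3 hyx (hR0 r hr) hq'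
      have := hb.1
      have := hb.2.2.1
      gcongr
  have hlo : ∀ q ∈ S, (1 - e) * (c ^ l / P0) ≤ ∏ r ∈ R, c / Real.log ((q * r + 1 : ℕ) : ℝ) := by
    intro q hq
    have hq' := (Finset.mem_filter.1 hq).1
    have h1 : c ^ l / ((1 + η) ^ l * P0) ≤ ∏ r ∈ R, c / Real.log ((q * r + 1 : ℕ) : ℝ) := by
      rw [hP0, ← hR, ← Finset.prod_const, ← Finset.prod_const, ← Finset.prod_mul_distrib, ← Finset.prod_div_distrib]
      refine Finset.prod_le_prod (fun r hr => ?_) fun r hr => ?_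
      · have hb := log_bounds g3 hyx (hR0 r hr) hq'
        have := hb.1
        positivity
      · have hb := log_bounds g3 hyx (hR0 r hr) hq'
        have : 0 < Real.log ((q * r + 1 : ℕ) : ℝ) := by linarith [hb.1, hb.2.2.1]
        have := hb.2.2.2
        gcongr
    refine le_trans ?_ h1
    have hpow : 0 < (1 + η) ^ l := by positivity
    rw [mul_div_assoc', div_le_div_iff₀ hP (by positivity)]
    have h2 : (1 + η) ^ l * (1 - e) * (c ^ l * P0) ≤ 1 * (c ^ l * P0) := mul_le_mul_of_nonneg_right g1 (by positivity)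
    linarith
  have hN : |(S.card : ℝ) - y * d| ≤ 2 * rad Q + 1 := by
    have hab : ⌈x⌉₊ ≤ ⌈x + y⌉₊ := Nat.ceil_mono (by linarith)
    have h1 := count_interval Q R ⌈x⌉₊ ⌈x + y⌉₊ hab
    have a1 := Nat.le_ceil x
    have a2 := Nat.ceil_lt_add_one (show 0 ≤ x by linarith)
    have b1 := Nat.le_ceil (x + y)
    have b2 := Nat.ceil_lt_add_one (show 0 ≤ x + y by linarith)
    have h2 := abs_le.1 h1
    rw [abs_le]
    constructor <;> nlinarith [h2.1, h2.2]
  have hN' := abs_le.1 hN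
  have hsmall : (2 * rad Q + 1 : ℝ) ≤ e * (y * d) := by
    rw [div_le_iff₀ he0] at hy1
    have h1 : 1 / ((rad Q : ℕ) : ℝ) * (y * e) ≤ d * (y * e) := mul_le_mul_of_nonneg_right hd1 (by positivity)
    have h2 : (2 * rad Q + 1 : ℝ) ≤ 1 / ((rad Q : ℕ) : ℝ) * (y * e) := by
      rw [one_div, inv_mul_eq_div, le_div_iff₀ hW]
      exact hy1
    linarith
  have hMM : MM Q R x y = y * d * (c ^ l / P0) := by
    unfold MM
    rw [sing_eq Q hQ, hR]
    ring
  set B : ℝ := c ^ l / P0 with hB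
  have hB0 : 0 < B := by positivity
  have u1 : ∑ q ∈ S, ∏ r ∈ R, c / Real.log ((q * r + 1 : ℕ) : ℝ) ≤ S.card * B := by
    rw [← nsmul_eq_mul]
    exact Finset.sum_le_card_nsmul _ _ _ hup
  have u2 : S.card * ((1 - e) * B) ≤ ∑ q ∈ S, ∏ r ∈ R, c / Real.log ((q * r + 1 : ℕ) : ℝ) := by
    rw [← nsmul_eq_mul]
    exact Finset.card_nsmul_le_sum _ _ _ hlo
  rw [hsum, hMM]
  have hyd : 0 < y * d := by positivity
  have v1 : S.card * B ≤ (1 + e) * (y * d * B) := by
    have : (S.card : ℝ) ≤ (1 + e) * (y * d) := by linarith [hN'.2]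
    calc S.card * B ≤ (1 + e) * (y * d) * B := mul_le_mul_of_nonneg_right this hB0.le
      _ = _ := by ring
  have v2 : (1 - 2 * e) * (y * d * B) ≤ S.card * ((1 - e) * B) := by
    have h1 : (1 - e) * (y * d) ≤ (S.card : ℝ) := by linarith [hN'.1]
    have h2 : (1 - e) * (y * d) * ((1 - e) * B) ≤ S.card * ((1 - e) * B) :=
      mul_le_mul_of_nonneg_right h1 (mul_nonneg (by linarith) hB0.le)
    refine le_trans ?_ h2
    have : 0 ≤ e * e * (y * d * B) := by positivity
    nlinarith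
  have w0 : 0 < y * d * B := by positivity
  have w1 : 2 * e * (y * d * B) ≤ ε * (y * d * B) := mul_le_mul_of_nonneg_right heε w0.le
  have w2 : e * (y * d * B) ≤ 2 * e * (y * d * B) := by nlinarith
  rw [abs_le]
  constructor <;> nlinarith

end Pool.Agent.N256.UT
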