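import Mathlib
import Pool.Agent.N256.UT.Asy

set_option autoImplicit false

/-! # The law of large numbers, uniformly in the tuple and the interval -/

open MeasureTheory Filter Set
open scoped Topology

namespace Pool.Agent.N256.UT

open Pool.Agent.R528.RM Pool.Agent.N909.TF

/-- finite sets of integers from codes -/
def dec : ℕ → ℕ → Finset ℕ
  | 0, _ => ∅
  | (l + 1), n => insert (Nat.unpair n).1 (dec l (Nat.unpair n).2)

lemma dec_surj (l : ℕ) : ∃ K : ℕ, ∀ (X : ℕ) (R : Finset ℕ), R.card = l → (∀ r ∈ R, r ≤ X) →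
    ∃ n, n + 1 ≤ (X + 2) ^ K ∧ dec l n = R := by
  classical
  induction l with
  | zero =>
    refine ⟨0, fun X R hR _ => ⟨0, by simp, ?_⟩⟩
    rw [Finset.card_eq_zero.1 hR]
    rfl
  | succ l ih =>
    obtain ⟨K, hK⟩ := ih
    refine ⟨(K + 1) * 2, fun X R hR hX => ?_⟩
    obtain ⟨r, hr⟩ : R.Nonempty := Finset.card_pos.1 (by omega)
    obtain ⟨n, hn, hd⟩ := hK X (R.erase r) (by rw [Finset.card_erase_of_mem hr]; omega)
      (fun s hs => hX s (Finset.mem_of_mem_erase hs))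
    refine ⟨Nat.pair r n, ?_, ?_⟩
    · have h1 := Nat.pair_lt_max_add_one_sq r n
      have h2 : max r n + 1 ≤ (X + 2) ^ (K + 1) := by
        have e1 : (X + 2) ^ K ≤ (X + 2) ^ (K + 1) := Nat.pow_le_pow_right (by omega) (by omega)
        have e2 : X + 2 ≤ (X + 2) ^ (K + 1) := by
          calc X + 2 = (X + 2) ^ 1 := (pow_one _).symm
            _ ≤ _ := Nat.pow_le_pow_right (by omega) (by omega)
        have e3 := hX r hr
        rcases le_total r n with h | h
        · rw [max_eq_right h]; omega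
        · rw [max_eq_left h]; omega
      calc Nat.pair r n + 1 ≤ (max r n + 1) ^ 2 := h1
        _ ≤ ((X + 2) ^ (K + 1)) ^ 2 := Nat.pow_le_pow_left h2 2
        _ = _ := (pow_mul _ _ _).symm
    · show insert (Nat.unpair (Nat.pair r n)).1 (dec l (Nat.unpair (Nat.pair r n)).2) = R
      rw [Nat.unpair_pair]
      show insert r (dec l n) = R
      rw [hd, Finset.insert_erase hr]

/-- the left end of the interval -/
def cA (n : ℕ) : ℕ := (Nat.unpair (Nat.unpair n).1).1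
/-- the right end of the interval -/
def cB (n : ℕ) : ℕ := (Nat.unpair (Nat.unpair n).1).2
/-- the tuple -/
def cR (l n : ℕ) : Finset ℕ := dec l (Nat.unpair n).2

lemma code_surj (l C : ℕ) : ∃ K : ℕ, ∀ (a b : ℕ) (R : Finset ℕ), 2 ≤ a → b ≤ 4 * a → R.card = l →
    (∀ r ∈ R, r ≤ a ^ C) → ∃ n, a ≤ n ∧ n ≤ a ^ K ∧ cA n = a ∧ cB n = b ∧ cR l n = R := by
  obtain ⟨K, hK⟩ := dec_surj l
  refine ⟨(8 + (C + 2) * K) * 2, fun a b R ha hb hR hC => ?_⟩
  obtain ⟨m, hm, hd⟩ := hK (a ^ C) R hR hC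
  refine ⟨Nat.pair (Nat.pair a b) m, ?_, ?_, ?_, ?_, ?_⟩
  · exact (Nat.left_le_pair a b).trans (Nat.left_le_pair _ m)
  · have h1 : Nat.pair a b + 1 ≤ a ^ 8 := by
      have e1 := Nat.pair_lt_max_add_one_sq a b
      have e2 : max a b + 1 ≤ a ^ 4 := by
        have : a ^ 4 = a * a * (a * a) := by ring
        have h4 : 4 ≤ a * a := Nat.mul_le_mul ha ha
        have h5 : 8 * a ≤ a * a * (a * a) := by
          calc 8 * a = 4 * (2 * a) := by ring
            _ ≤ a * a * (a * a) := Nat.mul_le_mul h4 (Nat.mul_le_mul_right a ha)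
        rcases le_total a b with h | h
        · rw [max_eq_right h]; omega
        · rw [max_eq_left h]; omega
      calc Nat.pair a b + 1 ≤ (max a b + 1) ^ 2 := e1
        _ ≤ (a ^ 4) ^ 2 := Nat.pow_le_pow_left e2 2
        _ = a ^ 8 := (pow_mul _ _ _).symm
    have h2 : m + 1 ≤ a ^ ((C + 2) * K) := by
      have e1 : a ^ C + 2 ≤ a ^ (C + 2) := by
        rw [pow_add]
        have h4 : 4 ≤ a ^ 2 := by
          calc 4 = 2 ^ 2 := by norm_num
            _ ≤ _ := Nat.pow_le_pow_left ha 2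
        have h5 : 1 ≤ a ^ C := Nat.one_le_pow _ _ (by omega)
        have h6 : a ^ C * 4 ≤ a ^ C * a ^ 2 := Nat.mul_le_mul_left _ h4
        omega
      calc m + 1 ≤ (a ^ C + 2) ^ K := hm
        _ ≤ (a ^ (C + 2)) ^ K := Nat.pow_le_pow_left e1 K
        _ = _ := (pow_mul _ _ _).symm
    have h3 := Nat.pair_lt_max_add_one_sq (Nat.pair a b) m
    have h4 : max (Nat.pair a b) m + 1 ≤ a ^ (8 + (C + 2) * K) := by
      have f1 : a ^ 8 ≤ a ^ (8 + (C + 2) * K) := Nat.pow_le_pow_right (by omega) (by omega)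
      have f2 : a ^ ((C + 2) * K) ≤ a ^ (8 + (C + 2) * K) := Nat.pow_le_pow_right (by omega) (by omega)
      rcases le_total (Nat.pair a b) m with h | h
      · rw [max_eq_right h]; omega
      · rw [max_eq_left h]; omega
    calc Nat.pair (Nat.pair a b) m ≤ (max (Nat.pair a b) m + 1) ^ 2 := h3.le
      _ ≤ (a ^ (8 + (C + 2) * K)) ^ 2 := Nat.pow_le_pow_left h4 2
      _ = _ := (pow_mul _ _ _).symm
  · unfold cA
    rw [Nat.unpair_pair, Nat.unpair_pair]
  · unfold cB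
    rw [Nat.unpair_pair, Nat.unpair_pair]
  · unfold cR
    rw [Nat.unpair_pair]
    exact hd

open Classical in
/-- the family of the code `n` -/
noncomputable def fam (l n : ℕ) : Finset ℕ :=
  if 0 < cA n ∧ (cR l n).card = l ∧ (∀ r ∈ cR l n, 0 < r) then Finset.Ico (cA n) (cB n) else ∅

/-- the tuple belonging to `q` -/
noncomputable def tup (l n q : ℕ) : Finset ℕ := (cR l n).image (fun r => q * r + 1)

lemma tup_inj {q : ℕ} (hq : 0 < q) : Function.Injective (fun r : ℕ => q * r + 1) := by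
  intro a b h
  simp only [Nat.add_right_cancel_iff] at h
  exact Nat.eq_of_mul_eq_mul_left hq h

lemma fam_spec {l n q : ℕ} (hq : q ∈ fam l n) :
    0 < q ∧ cA n ≤ q ∧ q < cB n ∧ (cR l n).card = l ∧ ∀ r ∈ cR l n, 0 < r := by
  classical
  unfold fam at hq
  split_ifs at hq with h
  · rw [Finset.mem_Ico] at hq
    exact ⟨lt_of_lt_of_le h.1 hq.1, hq.1, hq.2, h.2.1, h.2.2⟩
  · exact absurd hq (Finset.notMem_empty _)

lemma tup_card (l n q : ℕ) (hq : q ∈ fam l n) : (tup l n q).card = l := by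
  have h := fam_spec hq
  unfold tup
  rw [Finset.card_image_of_injective _ (tup_inj h.1), h.2.2.2.1]

lemma tup_mult (l n t : ℕ) : ((fam l n).filter (fun q => t ∈ tup l n q)).card ≤ l + 1 := by
  classical
  by_cases hne : ∃ q, q ∈ fam l n
  · obtain ⟨q0, hq0⟩ := hne
    have h0 := fam_spec hq0
    calc ((fam l n).filter (fun q => t ∈ tup l n q)).card
        ≤ ((cR l n).image (fun r => (t - 1) / r)).card := by
          apply Finset.card_le_card
          intro q hq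
          rw [Finset.mem_filter] at hq
          obtain ⟨_, h2⟩ := hq
          unfold tup at h2
          rw [Finset.mem_image] at h2
          obtain ⟨r, hr, hrt⟩ := h2
          rw [Finset.mem_image]
          refine ⟨r, hr, ?_⟩
          have : t - 1 = q * r := by omega
          rw [this]
          exact Nat.mul_div_cancel _ (h0.2.2.2.2 r hr)
      _ ≤ (cR l n).card := Finset.card_image_le
      _ ≤ l + 1 := by rw [h0.2.2.2.1]; omega
  · have : (fam l n).filter (fun q => t ∈ tup l n q) = ∅ := by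
      rw [Finset.eq_empty_iff_forall_notMem]
      intro q hq
      exact hne ⟨q, (Finset.mem_filter.1 hq).1⟩
    rw [this]
    simp

/-- the admissible codes -/
def adm (l C K : ℕ) (δ : ℝ) : Set ℕ := {n | 2 ≤ cA n ∧ cA n ≤ cB n ∧ cB n ≤ 3 * cA n ∧
  ((cA n : ℕ) : ℝ) ^ δ ≤ (cB n : ℝ) - cA n ∧ (cR l n).card = l ∧ (∀ r ∈ cR l n, 0 < r ∧ r ≤ cA n ^ C) ∧ n ≤ cA n ^ K}

lemma EE_code (Q l n : ℕ) (h0 : 0 < cA n) (h1 : (cR l n).card = l) (h2 : ∀ r ∈ cR l n, 0 < r) :
    ∑ q ∈ fam l n, ∏ t ∈ tup l n q, rhoW Q t = EE Q (cR l n) (cA n) (cB n) := by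
  classical
  unfold fam EE
  rw [if_pos ⟨h0, h1, h2⟩]
  refine Finset.sum_congr rfl fun q hq => ?_
  rw [Finset.mem_Ico] at hq
  unfold tup
  rw [Finset.prod_image]
  intro a _ b _ hab
  exact tup_inj (by omega) hab

lemma ceil_self (a b : ℕ) (hab : a ≤ b) : ⌈(a : ℝ)⌉₊ = a ∧ ⌈(a : ℝ) + ((b : ℝ) - a)⌉₊ = b := by
  refine ⟨Nat.ceil_natCast a, ?_⟩
  rw [add_sub_cancel]
  exact Nat.ceil_natCast b

/-- the left ends tend to infinity along the admissible codes -/
lemma cA_tendsto (l C K : ℕ) (δ : ℝ) : Tendsto cA (atTop ⊓ 𝓟 (adm l C K δ)) atTop := by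
  rw [tendsto_atTop]
  intro N
  rw [eventually_inf_principal]
  filter_upwards [eventually_gt_atTop (N ^ K)] with n hn hadm
  by_contra hcon
  push Not at hcon
  have : cA n ^ K ≤ N ^ K := Nat.pow_le_pow_left hcon.le K
  have := hadm.2.2.2.2.2.2
  omega

/-- lower bound of the expected number -/
lemma EE_large (Q : ℕ) (hQ : 0 < Q) (l C K : ℕ) (δ : ℝ) (hδ : 0 < δ) :
    Tendsto (fun n => (∑ q ∈ fam l n, ∏ t ∈ tup l n q, rhoW Q t) / ((l + 1 : ℕ) : ℝ) / Real.log n)
      (atTop ⊓ 𝓟 (adm l C K δ)) atTop := by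
  obtain ⟨X, hX⟩ := EE_asymp Q hQ l (1 / 2) (by norm_num)
  have hA := cA_tendsto l C K δ
  have hQ' : (0 : ℝ) < Q := by exact_mod_cast hQ
  set κ : ℝ := 1 / (2 * Q * (C + 1) ^ l * (l + 1) * (K + 1)) with hκ
  have hκ0 : 0 < κ := by positivity
  have hpl := (pow_log κ δ hκ0 hδ (l + 1)).comp hA
  refine tendsto_atTop_mono' _ ?_ hpl
  have hxX : ∀ᶠ a : ℕ in atTop, X ≤ (a : ℝ) ∧ X ≤ (a : ℝ) ^ δ ∧ 2 ≤ a := by
    refine (tendsto_natCast_atTop_atTop.eventually_ge_atTop X).and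
      ((((tendsto_rpow_atTop hδ).comp tendsto_natCast_atTop_atTop).eventually_ge_atTop X).and
        (eventually_ge_atTop 2))
  have hmem : ∀ᶠ n in atTop ⊓ 𝓟 (adm l C K δ), n ∈ adm l C K δ := by
    rw [eventually_inf_principal]
    exact Eventually.of_forall fun n hn => hn
  have hn2 : ∀ᶠ n in atTop ⊓ 𝓟 (adm l C K δ), 2 ≤ n := (eventually_ge_atTop 2).filter_mono inf_le_left
  filter_upwards [hA.eventually hxX, hmem, hn2] with n g1 g2 g3
  obtain ⟨a1, a2, a3, a4, a5, a6, a7⟩ := g2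
  simp only [Function.comp_apply]
  have ha : (2 : ℝ) ≤ (cA n : ℝ) := by exact_mod_cast a1
  have hla : 0 < Real.log (cA n : ℝ) := Real.log_pos (by linarith)
  have hln : 0 < Real.log (n : ℝ) := Real.log_pos (by exact_mod_cast g3)
  rw [EE_code Q l n (by omega) a5 (fun r hr => (a6 r hr).1)]
  have hce := ceil_self (cA n) (cB n) a2
  have h1 := hX (cA n) g1.1 ((cB n : ℝ) - cA n) (g1.2.1.trans a4)
    (by
      have : ((cB n : ℕ) : ℝ) ≤ 3 * cA n := by exact_mod_cast a3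
      linarith) (cR l n) a5 (fun r hr => (a6 r hr).1)
  rw [hce.1, hce.2] at h1
  set y : ℝ := (cB n : ℝ) - cA n with hy
  have hy0 : 0 < y := lt_of_lt_of_le (Real.rpow_pos_of_pos (by linarith) _) a4
  have h2 : 1 / 2 * MM Q (cR l n) (cA n) y ≤ EE Q (cR l n) (cA n) (cB n) := by
    linarith [(abs_le.1 h1).1]
  -- lower bound of the main term
  have h3 : 1 / (Q : ℝ) * y / ((C + 1) * Real.log (cA n)) ^ l ≤ MM Q (cR l n) (cA n) y := by
    unfold MM
    have hp : 0 < ∏ r ∈ cR l n, Real.log (r * (cA n : ℝ)) := by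
      refine Finset.prod_pos fun r hr => ?_
      have : (1 : ℝ) ≤ r := by exact_mod_cast (a6 r hr).1
      exact Real.log_pos (by nlinarith)
    have hp2 : ∏ r ∈ cR l n, Real.log (r * (cA n : ℝ)) ≤ ((C + 1) * Real.log (cA n)) ^ l := by
      have hconst : ((C + 1 : ℝ) * Real.log (cA n)) ^ l = ∏ _r ∈ cR l n, ((C + 1 : ℝ) * Real.log (cA n)) := by
        rw [Finset.prod_const, a5]
      rw [hconst]
      refine Finset.prod_le_prod (fun r hr => ?_) fun r hr => ?_
      · have : (1 : ℝ) ≤ r := by exact_mod_cast (a6 r hr).1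
        exact Real.log_nonneg (by nlinarith)
      · have h1 : (1 : ℝ) ≤ r := by exact_mod_cast (a6 r hr).1
        have h2 : (r : ℝ) ≤ (cA n : ℝ) ^ C := by exact_mod_cast (a6 r hr).2
        rw [Real.log_mul (by linarith) (by linarith)]
        have h3 : Real.log r ≤ C * Real.log (cA n) := by
          rw [← Real.log_pow]
          exact Real.log_le_log (by linarith) h2
        linarith
    have hs := sing_ge Q hQ (cR l n)
    have hs0 : 0 < sing Q (cR l n) := lt_of_lt_of_le (by positivity) hs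
    calc 1 / (Q : ℝ) * y / ((C + 1) * Real.log (cA n)) ^ l
        ≤ sing Q (cR l n) * y / ((C + 1) * Real.log (cA n)) ^ l := by gcongr
      _ ≤ _ := by gcongr
  have h4 : Real.log (n : ℝ) ≤ (K + 1) * Real.log (cA n) := by
    have : (n : ℝ) ≤ (cA n : ℝ) ^ K := by exact_mod_cast a7
    have h5 : Real.log (n : ℝ) ≤ Real.log ((cA n : ℝ) ^ K) := Real.log_le_log (by
      have : (2 : ℝ) ≤ n := by exact_mod_cast g3
      linarith) this
    rw [Real.log_pow] at h5
    linarith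
  have h5 : κ * (cA n : ℝ) ^ δ / Real.log (cA n) ^ (l + 1) ≤
      (1 / 2 * (1 / (Q : ℝ) * y / ((C + 1) * Real.log (cA n)) ^ l)) / ((l + 1 : ℕ) : ℝ) / ((K + 1) * Real.log (cA n)) := by
    have e1 : (1 / 2 * (1 / (Q : ℝ) * y / ((C + 1) * Real.log (cA n)) ^ l)) / ((l + 1 : ℕ) : ℝ) / ((K + 1) * Real.log (cA n)) =
        κ * y / Real.log (cA n) ^ (l + 1) := by
      rw [hκ, mul_pow, pow_succ]
      push_cast
      field_simp
    rw [e1]
    gcongr
  refine h5.trans ?_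
  have h6 : 0 ≤ EE Q (cR l n) (cA n) (cB n) :=
    Finset.sum_nonneg fun q _ => Finset.prod_nonneg fun r _ => rhoW_nonneg Q _
  calc _ ≤ EE Q (cR l n) (cA n) (cB n) / ((l + 1 : ℕ) : ℝ) / ((K + 1) * Real.log (cA n)) := by
        gcongr
        linarith
    _ ≤ _ := by gcongr

variable {Ω : Type} {m0 : MeasurableSpace Ω} {μ : Measure Ω} [IsProbabilityMeasure μ]
  {ℱ : Filtration ℕ m0} {A : ℕ → Set Ω}

/-- **the law of large numbers** with natural end points -/
theorem nat_law (hA : ∀ n, MeasurableSet[ℱ n] (A n)) (Q : ℕ) (hQ : 0 < Q)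
    (hcop : ∀ n, ¬ Nat.Coprime n Q → A n = ∅)
    (hd : ∀ᵐ ω ∂μ, Tendsto (fun n : ℕ => dens μ ℱ A n ω * Real.log n)
      (atTop ⊓ 𝓟 {n : ℕ | Nat.Coprime (n + 1) Q}) (𝓝 ((Q : ℝ) / Nat.totient Q))) (l C : ℕ) (δ : ℝ) (hδ : 0 < δ) :
    ∀ᵐ ω ∂μ, ∀ ε : ℝ, 0 < ε → ∃ N : ℕ, ∀ a b : ℕ, N ≤ a → (a : ℝ) ^ δ ≤ (b : ℝ) - a → b ≤ 3 * a →
      ∀ R : Finset ℕ, R.card = l → (∀ r ∈ R, 0 < r ∧ r ≤ a ^ C) →
      |({q : ℕ | a ≤ q ∧ q < b ∧ ∀ r ∈ R, ω ∈ A (q * r + 1)}.ncard : ℝ) - EE Q R a b| ≤ ε * EE Q R a b := by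
  classical
  obtain ⟨K, hK⟩ := code_surj l C
  have h1 := families (μ := μ) hA (rhoW Q) (fun n => ⟨rhoW_nonneg Q n, rhoW_le Q n⟩)
    (dens_profile hA Q hQ hcop hd) l (fam l) (tup l) (fun _ => l + 1) (fun n j hj => tup_card l n j hj)
    (fun n j _ => by
      unfold tup
      rw [Finset.mem_image]
      rintro ⟨r, _, h⟩
      omega)
    (fun n t => tup_mult l n t) (atTop ⊓ 𝓟 (adm l C K δ)) inf_le_left (EE_large Q hQ l C K δ hδ)
  filter_upwards [h1] with ω hω ε hε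
  have h2 := hω ε hε
  rw [eventually_inf_principal] at h2
  obtain ⟨N, hN⟩ := eventually_atTop.1 h2
  refine ⟨max N 2, fun a b ha hab hb R hR hRC => ?_⟩
  have ha2 : 2 ≤ a := (le_max_right _ _).trans ha
  obtain ⟨n, n1, n2, n3, n4, n5⟩ := hK a b R ha2 (by omega) hR (fun r hr => (hRC r hr).2)
  have hab' : a ≤ b := by
    have : (0 : ℝ) < (a : ℝ) ^ δ := Real.rpow_pos_of_pos (by
      have : (2 : ℝ) ≤ a := by exact_mod_cast ha2
      linarith) _
    have : (a : ℝ) ≤ b := by linarith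
    exact_mod_cast this
  have hadm : n ∈ adm l C K δ := by
    unfold adm
    rw [Set.mem_ofPred_eq, n3, n4, n5]
    exact ⟨ha2, hab', hb, hab, hR, hRC, n2⟩
  have h3 := hN n (((le_max_left _ _).trans ha).trans n1) hadm
  rw [EE_code Q l n (by omega) (by rw [n5]; exact hR) (by rw [n5]; exact fun r hr => (hRC r hr).1), n3, n4, n5,
    Mx_top (rhoW Q) (fam l n) (tup l n) (k := l) (fun j hj => tup_card l n j hj)] at h3
  have h4 : ((fam l n).filter (fun q => ∀ t ∈ tup l n q, ω ∈ A t)).card =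
      {q : ℕ | a ≤ q ∧ q < b ∧ ∀ r ∈ R, ω ∈ A (q * r + 1)}.ncard := by
    rw [← Set.ncard_coe_finset]
    congr 1
    ext q
    unfold fam tup
    rw [n3, n4, n5, if_pos ⟨by omega, hR, fun r hr => (hRC r hr).1⟩]
    simp only [Finset.coe_filter, Finset.mem_Ico, Finset.mem_image, forall_exists_index, and_imp,
      forall_apply_eq_imp_iff₂, Set.mem_ofPred_eq, and_assoc]
  rw [← h4]
  exact h3

end Pool.Agent.N256.UT
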